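import Mathlib

/-!
# MP_a4c3d5_co, Q1: positions of small terms in weakly consecutive sequences

A weakly consecutive sequence (WCS) of length `k` is a permutation `σ` of `[k] = {1, ..., k}` such
that `m ∣ σ i` and `m ∣ i - j` imply `m ∣ σ j`.  We show that every value `m` (in particular every
`m < k / 2`) occurs among the first `m` or among the last `m` entries.

The main point is the case `m = 1`.  If neither end carries the value `1`, there are primes
`p ∣ σ 1` and `q ∣ σ k`; counting multiples gives `p ∣ k`, `q ∣ k`, `p ≠ q`, and by reversal we may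
assume `p < q`.  Write `k = p h`.  The multiples of `h + 1` occupy a class modulo `h + 1` which is
forced, by the Chinese remainder theorem and by the positions of the multiples of `p`, to contain
the position `(p - 1) h`.  That position also carries a multiple of `q`, hence of `q (h + 1) > k`,
a contradiction.
-/

set_option autoImplicit false

namespace Pool.Agent.Results.MP_a4c3d5_co.SmallTerms

/-- A weakly consecutive sequence of length `k`: a permutation `σ` of `{1, ..., k}` (the values of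
`σ` outside of `{1, ..., k}` are irrelevant) such that for all positions `i, j` and all positive
integers `m`: if `m ∣ σ i` and `m ∣ i - j` then `m ∣ σ j`. -/
def IsWCS (k : ℕ) (σ : ℕ → ℕ) : Prop :=
  Set.BijOn σ (Set.Icc 1 k) (Set.Icc 1 k) ∧
    ∀ i ∈ Set.Icc 1 k, ∀ j ∈ Set.Icc 1 k, ∀ m : ℕ, 0 < m →
      m ∣ σ i → (m : ℤ) ∣ (i : ℤ) - (j : ℤ) → m ∣ σ j

variable {k : ℕ} {σ : ℕ → ℕ}

lemma IsWCS.bounds (h : IsWCS k σ) {i : ℕ} (h1 : 1 ≤ i) (h2 : i ≤ k) : 1 ≤ σ i ∧ σ i ≤ k :=
  h.1.mapsTo ⟨h1, h2⟩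

/-- At most `k / m` positions carry a multiple of `m`. -/
lemma IsWCS.card_le (h : IsWCS k σ) {m : ℕ} (S : Finset ℕ)
    (hS : ∀ i ∈ S, 1 ≤ i ∧ i ≤ k) (hm : ∀ i ∈ S, m ∣ σ i) : S.card ≤ k / m := by
  have h1 : (S.image σ).card = S.card := by
    apply Finset.card_image_of_injOn
    intro a ha b hb hab
    exact h.1.injOn (hS a ha) (hS b hb) hab
  rw [← h1, ← Nat.Ioc_filter_dvd_card_eq_div]
  apply Finset.card_le_card
  intro v hv
  rw [Finset.mem_image] at hv
  obtain ⟨i, hi, rfl⟩ := hv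
  rw [Finset.mem_filter, Finset.mem_Ioc]
  have h2 := h.bounds (hS i hi).1 (hS i hi).2
  exact ⟨⟨h2.1, h2.2⟩, hm i hi⟩

/-- The positions of the multiples of `m`. -/
lemma IsWCS.class (h : IsWCS k σ) {m : ℕ} (hm : 0 < m) (hmk : m ≤ k) :
    ∃ r, 1 ≤ r ∧ r ≤ m ∧ k % m < r ∧
      ∀ i, 1 ≤ i → i ≤ k → (m ∣ σ i ↔ i ≡ r [MOD m]) := by
  obtain ⟨i0, hi0, hσ⟩ := h.1.surjOn (show m ∈ Set.Icc 1 k from ⟨hm, hmk⟩)
  have hi1 : 1 ≤ i0 := hi0.1
  have hi2 : i0 ≤ k := hi0.2
  have hkm : m * (k / m) + k % m = k := Nat.div_add_mod k m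
  have him : m * ((i0 - 1) / m) + (i0 - 1) % m = i0 - 1 := Nat.div_add_mod (i0 - 1) m
  have hlt : (i0 - 1) % m < m := Nat.mod_lt _ hm
  obtain ⟨r, hr⟩ : ∃ r, r = (i0 - 1) % m + 1 := ⟨_, rfl⟩
  have hri : i0 = m * ((i0 - 1) / m) + r := by omega
  have hcong : i0 ≡ r [MOD m] := by
    have : m * ((i0 - 1) / m) + r ≡ r [MOD m] := by
      simp [Nat.ModEq]
    rw [← hri] at this
    exact this
  -- all positions in the class carry multiples
  have hcl : ∀ i, 1 ≤ i → i ≤ k → i ≡ r [MOD m] → m ∣ σ i := by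
    intro i h1 h2 h3
    refine h.2 i0 hi0 i ⟨h1, h2⟩ m hm (by rw [hσ]) ?_
    exact (Nat.modEq_iff_dvd.1 (h3.trans hcong.symm))
  have hpos : ∀ j, r + m * j ≡ r [MOD m] := by
    intro j
    simp [Nat.ModEq]
  have hinj : Function.Injective (fun j => r + m * j) := by
    intro a b hab
    have hab' : m * a = m * b := by
      have : r + m * a = r + m * b := hab
      omega
    exact Nat.eq_of_mul_eq_mul_left hm hab'
  have hr1 : 1 ≤ r := by omega
  have hrm : r ≤ m := by omega
  refine ⟨r, hr1, hrm, ?_, ?_⟩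
  · -- the count
    by_contra hcon
    push Not at hcon
    have h1 := h.card_le (m := m) ((Finset.range (k / m + 1)).image (fun j => r + m * j))
      (by
        intro i hi
        rw [Finset.mem_image] at hi
        obtain ⟨j, hj, rfl⟩ := hi
        rw [Finset.mem_range] at hj
        have : m * j ≤ m * (k / m) := Nat.mul_le_mul_left _ (by omega)
        constructor <;> omega)
      (by
        intro i hi
        rw [Finset.mem_image] at hi
        obtain ⟨j, hj, rfl⟩ := hi
        rw [Finset.mem_range] at hj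
        have : m * j ≤ m * (k / m) := Nat.mul_le_mul_left _ (by omega)
        exact hcl _ (by omega) (by omega) (hpos j))
    rw [Finset.card_image_of_injective _ hinj, Finset.card_range] at h1
    omega
  · intro i h1 h2
    refine ⟨fun h3 => ?_, hcl i h1 h2⟩
    by_contra hcon
    have hnot : i ∉ (Finset.range (k / m)).image (fun j => r + m * j) := by
      intro hi
      rw [Finset.mem_image] at hi
      obtain ⟨j, -, rfl⟩ := hi
      exact hcon (hpos j)
    have hle : ∀ j < k / m, r + m * j ≤ k := by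
      intro j hj
      have : m * (j + 1) ≤ m * (k / m) := Nat.mul_le_mul_left _ (by omega)
      rw [Nat.mul_add, Nat.mul_one] at this
      omega
    have h4 := h.card_le (m := m) (insert i ((Finset.range (k / m)).image (fun j => r + m * j)))
      (by
        intro i' hi
        rw [Finset.mem_insert, Finset.mem_image] at hi
        rcases hi with rfl | ⟨j, hj, rfl⟩
        · exact ⟨h1, h2⟩
        · rw [Finset.mem_range] at hj
          exact ⟨by omega, hle j hj⟩)
      (by
        intro i' hi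
        rw [Finset.mem_insert, Finset.mem_image] at hi
        rcases hi with rfl | ⟨j, hj, rfl⟩
        · exact h3
        · rw [Finset.mem_range] at hj
          exact hcl _ (by omega) (hle j hj) (hpos j))
    rw [Finset.card_insert_of_notMem hnot, Finset.card_image_of_injective _ hinj,
      Finset.card_range] at h4
    omega

/-- The main case: different primes divide the values at the two ends. -/
lemma IsWCS.core (h : IsWCS k σ) (hk : 1 ≤ k) {p q : ℕ} (hp : p.Prime) (hq : q.Prime)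
    (hp1 : p ∣ σ 1) (hqk : q ∣ σ k) (hpq : p < q) : False := by
  have hb1 := h.bounds le_rfl hk
  have hbk := h.bounds hk le_rfl
  have hp2 : 2 ≤ p := hp.two_le
  have hpk : p ≤ k := (Nat.le_of_dvd hb1.1 hp1).trans hb1.2
  have hqk' : q ≤ k := (Nat.le_of_dvd hbk.1 hqk).trans hbk.2
  -- `p ∣ k`
  obtain ⟨r, hr1, hr2, hr3, hr4⟩ := h.class hp.pos hpk
  have hr5 : r = 1 := by
    have h1 := (hr4 1 le_rfl hk).1 hp1
    have h2 : 1 % p = 1 := Nat.mod_eq_of_lt (by omega)
    rcases Nat.lt_or_ge r p with h3 | h3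
    · rw [Nat.ModEq, h2, Nat.mod_eq_of_lt h3] at h1
      exact h1.symm
    · have h4 : r = p := le_antisymm hr2 h3
      rw [Nat.ModEq, h2, h4, Nat.mod_self] at h1
      omega
  subst hr5
  have hpk0 : k % p = 0 := by omega
  -- `q ∣ k`
  obtain ⟨t, ht1, ht2, ht3, ht4⟩ := h.class hq.pos hqk'
  have hqk0 : k % q = 0 := by
    have h1 := (ht4 k hk le_rfl).1 hqk
    rcases Nat.lt_or_ge t q with h3 | h3
    · rw [Nat.ModEq, Nat.mod_eq_of_lt h3] at h1
      omega
    · have h4 : t = q := le_antisymm ht2 h3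
      rw [Nat.ModEq, h4, Nat.mod_self] at h1
      exact h1
  obtain ⟨g, hg⟩ := Nat.dvd_of_mod_eq_zero hpk0
  have hqg : q ∣ g := by
    have h1 : q ∣ p * g := hg ▸ Nat.dvd_of_mod_eq_zero hqk0
    rcases hq.dvd_mul.1 h1 with h2 | h2
    · have := (Nat.prime_dvd_prime_iff_eq hq hp).1 h2
      omega
    · exact h2
  have hg0 : 0 < g := by
    rcases Nat.eq_zero_or_pos g with h1 | h1
    · rw [h1] at hg
      omega
    · exact h1
  have hgq : q ≤ g := Nat.le_of_dvd hg0 hqg
  have h2g : 2 * g ≤ k := by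
    rw [hg]
    exact Nat.mul_le_mul_right _ hp2
  have hpg1 : p * (g + 1) = k + p := by rw [Nat.mul_add, Nat.mul_one, hg]
  -- the class of the multiples of `g + 1`
  obtain ⟨c, hc1, hc2, hc3, hc4⟩ := h.class (m := g + 1) (by omega) (by omega)
  have hkmod : k % (g + 1) = g + 1 - p := by
    have h1 : k = (g + 1 - p) + (g + 1) * (p - 1) := by
      have h2 : (g + 1) * (p - 1) + (g + 1) = (g + 1) * p := by
        rw [← Nat.mul_succ]
        congr 1
        omega
      rw [Nat.mul_comm (g + 1) p, hpg1] at h2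
      omega
    rw [h1, Nat.add_mul_mod_self_left]
    exact Nat.mod_eq_of_lt (by omega)
  rw [hkmod] at hc3
  have hck : c ≤ k := by omega
  -- the value of `c`
  have hc : c + p = g + 2 := by
    by_cases hdiv : p ∣ g + 1
    · have h1 : p ∣ σ c := hdiv.trans ((hc4 c hc1 hck).2 (Nat.ModEq.refl _))
      have h2 := (hr4 c hc1 hck).1 h1
      obtain ⟨e, he⟩ := hdiv
      have h3 : (p : ℤ) ∣ (c : ℤ) - 1 := by
        have := Nat.modEq_iff_dvd.1 h2.symm
        exact_mod_cast this
      obtain ⟨f, hf⟩ := h3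
      have he' : (g : ℤ) + 1 = p * e := by exact_mod_cast he
      have h4 : (c : ℤ) = p * f + 1 := by linarith
      have h5 : (p : ℤ) * e < p * f + 1 + p := by
        have : (g : ℤ) + 1 < c + p := by omega
        rw [← he', ← h4]
        exact this
      have h6 : (p : ℤ) * f + 1 ≤ p * e := by
        rw [← he', ← h4]
        omega
      have hp0 : (0 : ℤ) < p := by exact_mod_cast hp.pos
      have h7 : e < f + 2 := by
        by_contra hcon
        push Not at hcon
        have : (p : ℤ) * (f + 2) ≤ p * e := mul_le_mul_of_nonneg_left hcon hp0.le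
        have h8 : (2 : ℤ) ≤ p := by exact_mod_cast hp2
        nlinarith
      have h8 : (f : ℤ) < e := by
        by_contra hcon
        push Not at hcon
        have : (p : ℤ) * e ≤ p * f := mul_le_mul_of_nonneg_left hcon hp0.le
        linarith
      have h9 : (e : ℤ) = f + 1 := by omega
      rw [h9] at he'
      have : (c : ℤ) + p = g + 2 := by
        rw [h4]
        linarith
      exact_mod_cast this
    · have hco : (g + 1).Coprime p := ((Nat.Prime.coprime_iff_not_dvd hp).2 hdiv).symm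
      obtain ⟨x, hx⟩ : ∃ x, x = (Nat.chineseRemainder hco c 1 : ℕ) := ⟨_, rfl⟩
      have hx1 : x ≡ c [MOD g + 1] := hx ▸ (Nat.chineseRemainder hco c 1).2.1
      have hx2 : x ≡ 1 [MOD p] := hx ▸ (Nat.chineseRemainder hco c 1).2.2
      have hx3 : x < (g + 1) * p := hx ▸
        Nat.chineseRemainder_lt_mul hco c 1 (by omega) hp.pos.ne'
      have hx4 : 1 ≤ x := by
        rcases Nat.eq_zero_or_pos x with h1 | h1
        · rw [h1, Nat.ModEq, Nat.zero_mod, Nat.mod_eq_of_lt (by omega : 1 < p)] at hx2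
          omega
        · exact h1
      have hx5 : k < x := by
        by_contra hcon
        push Not at hcon
        have h1 := (hc4 x hx4 hcon).2 hx1
        have h2 := (hr4 x hx4 hcon).2 hx2
        have h3 : (g + 1) * p ∣ σ x := hco.mul_dvd_of_dvd_of_dvd h1 h2
        have h4 := h.bounds hx4 hcon
        have h5 := Nat.le_of_dvd h4.1 h3
        rw [Nat.mul_comm, hpg1] at h5
        omega
      rw [Nat.mul_comm, hpg1] at hx3
      -- `x = k + 1`
      have hx6 : x = k + 1 := by
        obtain ⟨y, hy⟩ : ∃ y, x = k + y := ⟨x - k, by omega⟩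
        have h1 : k + y ≡ 1 [MOD p] := hy ▸ hx2
        have h2 : y ≡ 1 [MOD p] := by
          have h3 : k ≡ 0 [MOD p] := hpk0
          have h4 : k + y ≡ 0 + y [MOD p] := Nat.ModEq.add_right y h3
          rw [Nat.zero_add] at h4
          exact h4.symm.trans h1
        rw [Nat.ModEq, Nat.mod_eq_of_lt (by omega : y < p),
          Nat.mod_eq_of_lt (by omega : 1 < p)] at h2
        omega
      -- compare modulo `g + 1`
      have h1 : k + 1 ≡ c [MOD g + 1] := hx6 ▸ hx1
      have h2 : k + 1 ≡ g + 2 - p [MOD g + 1] := by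
        have h3 : k ≡ g + 1 - p [MOD g + 1] := by
          rw [Nat.ModEq, hkmod]
          exact (Nat.mod_eq_of_lt (by omega)).symm
        have h4 := Nat.ModEq.add_right 1 h3
        have h5 : g + 1 - p + 1 = g + 2 - p := by omega
        rwa [h5] at h4
      have h3 : g + 2 - p ≡ c [MOD g + 1] := h2.symm.trans h1
      rcases Nat.lt_or_ge c (g + 1) with h4 | h4
      · rw [Nat.ModEq, Nat.mod_eq_of_lt (by omega : g + 2 - p < g + 1),
          Nat.mod_eq_of_lt h4] at h3
        omega
      · have h5 : c = g + 1 := le_antisymm hc2 h4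
        rw [h5, Nat.ModEq, Nat.mod_self, Nat.mod_eq_of_lt (by omega : g + 2 - p < g + 1)] at h3
        omega
  -- the position `(p - 1) g`
  obtain ⟨p', rfl⟩ : ∃ p', p = p' + 2 := ⟨p - 2, by omega⟩
  have hy1 : (p' + 1) * g ≤ k := by
    rw [hg]
    exact Nat.mul_le_mul_right _ (by omega)
  have hy0 : 1 ≤ (p' + 1) * g := Nat.mul_pos (by omega) hg0
  have hy2 : (p' + 1) * g ≡ c [MOD g + 1] := by
    have h1 : (p' + 1) * g + 0 = c + (g + 1) * p' := by
      have : g = c + p' := by omega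
      rw [this]
      ring
    rw [Nat.add_zero] at h1
    rw [h1]
    simp [Nat.ModEq]
  have hy3 : g + 1 ∣ σ ((p' + 1) * g) := (hc4 _ hy0 hy1).2 hy2
  have hy4 : q ∣ σ ((p' + 1) * g) := by
    refine h.2 k ⟨hk, le_rfl⟩ _ ⟨hy0, hy1⟩ q hq.pos hqk ?_
    have h1 : (q : ℤ) ∣ (g : ℤ) := by exact_mod_cast hqg
    have h2 : (k : ℤ) - (((p' + 1) * g : ℕ) : ℤ) = g := by
      rw [hg]
      push_cast
      ring
    rw [h2]
    exact h1
  have hco : (g + 1).Coprime q := by
    have h1 : Nat.Coprime (g + 1) g := by simp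
    exact Nat.Coprime.coprime_dvd_right hqg h1
  have hy5 : (g + 1) * q ∣ σ ((p' + 1) * g) := hco.mul_dvd_of_dvd_of_dvd hy3 hy4
  have hy6 := h.bounds hy0 hy1
  have hy7 := Nat.le_of_dvd hy6.1 hy5
  have hy8 : (g + 1) * (p' + 2) ≤ (g + 1) * q := Nat.mul_le_mul_left _ hpq.le
  have hy9 : (g + 1) * (p' + 2) = k + (p' + 2) := by rw [Nat.mul_comm, hpg1]
  omega

/-- The reversed sequence. -/
lemma IsWCS.rev (h : IsWCS k σ) : IsWCS k (fun i => σ (k + 1 - i)) := by
  refine ⟨⟨?_, ?_, ?_⟩, ?_⟩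
  · intro i hi
    exact h.bounds (by have := hi.1; have := hi.2; omega) (by have := hi.1; omega)
  · intro a ha b hb hab
    have ha1 := ha.1
    have ha2 := ha.2
    have hb1 := hb.1
    have hb2 := hb.2
    have h1 : k + 1 - a ∈ Set.Icc 1 k := ⟨by omega, by omega⟩
    have h2 : k + 1 - b ∈ Set.Icc 1 k := ⟨by omega, by omega⟩
    have h3 : k + 1 - a = k + 1 - b := h.1.injOn h1 h2 hab
    omega
  · intro v hv
    obtain ⟨i, hi, rfl⟩ := h.1.surjOn hv
    have hi1 := hi.1
    have hi2 := hi.2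
    refine ⟨k + 1 - i, ⟨by omega, by omega⟩, ?_⟩
    have : k + 1 - (k + 1 - i) = i := by omega
    simp only [this]
  · intro i hi j hj m hm h1 h2
    have hi1 := hi.1
    have hi2 := hi.2
    have hj1 := hj.1
    have hj2 := hj.2
    refine h.2 (k + 1 - i) ⟨by omega, by omega⟩ (k + 1 - j) ⟨by omega, by omega⟩ m hm h1 ?_
    have h3 : ((k + 1 - i : ℕ) : ℤ) - ((k + 1 - j : ℕ) : ℤ) = -((i : ℤ) - j) := by
      rw [Nat.cast_sub (by omega), Nat.cast_sub (by omega)]
      ring
    rw [h3]
    exact (dvd_neg).2 h2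

/-- The value `1` occurs at an end. -/
theorem IsWCS.one (h : IsWCS k σ) (hk : 1 ≤ k) : σ 1 = 1 ∨ σ k = 1 := by
  by_contra hcon
  push Not at hcon
  obtain ⟨p, hp, hp1⟩ := Nat.exists_prime_and_dvd hcon.1
  obtain ⟨q, hq, hq1⟩ := Nat.exists_prime_and_dvd hcon.2
  rcases Nat.lt_trichotomy p q with h1 | h1 | h1
  · exact h.core hk hp hq hp1 hq1 h1
  · -- `p = q`
    subst h1
    have hb1 := h.bounds le_rfl hk
    have hpk : p ≤ k := (Nat.le_of_dvd hb1.1 hp1).trans hb1.2
    have hp2 : 2 ≤ p := hp.two_le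
    obtain ⟨r, hr1, hr2, hr3, hr4⟩ := h.class hp.pos hpk
    have h2 := (hr4 1 le_rfl hk).1 hp1
    have h3 := (hr4 k hk le_rfl).1 hq1
    have h4 : 1 % p = 1 := Nat.mod_eq_of_lt (by omega)
    rcases Nat.lt_or_ge r p with h5 | h5
    · rw [Nat.ModEq, Nat.mod_eq_of_lt h5] at h2 h3
      omega
    · have h6 : r = p := le_antisymm hr2 h5
      rw [Nat.ModEq, h4, h6, Nat.mod_self] at h2
      omega
  · refine h.rev.core hk hq hp ?_ ?_ h1
    · have : k + 1 - 1 = k := by omega
      simpa only [this] using hq1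
    · have : k + 1 - k = 1 := by omega
      simpa only [this] using hp1

/-- The slices. -/
lemma IsWCS.slice (h : IsWCS k σ) {m r : ℕ} (hm : 0 < m) (hr1 : 1 ≤ r) (hr2 : r ≤ m)
    (hr3 : k % m < r) (hr4 : ∀ i, 1 ≤ i → i ≤ k → (m ∣ σ i ↔ i ≡ r [MOD m])) :
    IsWCS (k / m) (fun i => σ (r + m * (i - 1)) / m) := by
  have hkm : m * (k / m) + k % m = k := Nat.div_add_mod k m
  have hpos : ∀ j, r + m * j ≡ r [MOD m] := by
    intro j
    simp [Nat.ModEq]
  have hle : ∀ i, 1 ≤ i → i ≤ k / m → 1 ≤ r + m * (i - 1) ∧ r + m * (i - 1) ≤ k := by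
    intro i h1 h2
    have h3 : m * (i - 1) + m ≤ m * (k / m) := by
      have : m * (i - 1 + 1) ≤ m * (k / m) := Nat.mul_le_mul_left _ (by omega)
      rwa [Nat.mul_add, Nat.mul_one] at this
    omega
  have hdvd : ∀ i, 1 ≤ i → i ≤ k / m → m ∣ σ (r + m * (i - 1)) := by
    intro i h1 h2
    exact (hr4 _ (hle i h1 h2).1 (hle i h1 h2).2).2 (hpos _)
  refine ⟨⟨?_, ?_, ?_⟩, ?_⟩
  · intro i hi
    have h1 := h.bounds (hle i hi.1 hi.2).1 (hle i hi.1 hi.2).2
    have h2 := hdvd i hi.1 hi.2
    exact ⟨Nat.div_pos (Nat.le_of_dvd h1.1 h2) hm, Nat.div_le_div_right h1.2⟩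
  · intro a ha b hb hab
    have h1 : σ (r + m * (a - 1)) = σ (r + m * (b - 1)) := by
      rw [← Nat.mul_div_cancel' (hdvd a ha.1 ha.2), ← Nat.mul_div_cancel' (hdvd b hb.1 hb.2)]
      have : σ (r + m * (a - 1)) / m = σ (r + m * (b - 1)) / m := hab
      rw [this]
    have h2 := h.1.injOn (hle a ha.1 ha.2) (hle b hb.1 hb.2) h1
    have h3 : m * (a - 1) = m * (b - 1) := by omega
    have h4 := Nat.eq_of_mul_eq_mul_left hm h3
    have := ha.1
    have := hb.1
    omega
  · intro v hv
    have hv1 : 1 ≤ v := hv.1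
    have hv2 : v ≤ k / m := hv.2
    have h1 : m * v ≤ k := by
      have : m * v ≤ m * (k / m) := Nat.mul_le_mul_left _ hv2
      omega
    obtain ⟨i0, hi0, hσ⟩ := h.1.surjOn (show m * v ∈ Set.Icc 1 k from
      ⟨Nat.mul_pos hm hv1, h1⟩)
    have h2 := (hr4 i0 hi0.1 hi0.2).1 (hσ ▸ Dvd.intro v rfl)
    have hi1 : 1 ≤ i0 := hi0.1
    have hi2 : i0 ≤ k := hi0.2
    have h3 : r ≤ i0 := by
      by_contra hcon
      push Not at hcon
      rcases Nat.lt_or_ge r m with h4 | h4
      · rw [Nat.ModEq, Nat.mod_eq_of_lt h4, Nat.mod_eq_of_lt (by omega)] at h2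
        omega
      · have h5 : r = m := le_antisymm hr2 h4
        rw [Nat.ModEq, h5, Nat.mod_self, Nat.mod_eq_of_lt (by omega)] at h2
        omega
    obtain ⟨t, ht⟩ := (Nat.modEq_iff_dvd' h3).1 h2.symm
    have h4 : t < k / m := by
      by_contra hcon
      push Not at hcon
      have : m * (k / m) ≤ m * t := Nat.mul_le_mul_left _ hcon
      omega
    refine ⟨t + 1, ⟨by omega, by omega⟩, ?_⟩
    have h5 : r + m * (t + 1 - 1) = i0 := by
      rw [Nat.add_sub_cancel]
      omega
    simp only [h5, hσ]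
    exact Nat.mul_div_cancel_left v hm
  · intro i hi j hj d hd h1 h2
    have h3 : m * d ∣ σ (r + m * (i - 1)) := by
      rw [← Nat.mul_div_cancel' (hdvd i hi.1 hi.2)]
      exact Nat.mul_dvd_mul_left m h1
    have h4 : m * d ∣ σ (r + m * (j - 1)) := by
      refine h.2 _ (hle i hi.1 hi.2) _ (hle j hj.1 hj.2) (m * d) (Nat.mul_pos hm hd) h3 ?_
      obtain ⟨e, he⟩ := h2
      refine ⟨e, ?_⟩
      have hi1 := hi.1
      have hj1 := hj.1
      push_cast [Nat.cast_sub hi1, Nat.cast_sub hj1]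
      have : (m : ℤ) * ((i : ℤ) - j) = m * (d * e) := by rw [he]
      linarith
    exact (Nat.dvd_div_iff_mul_dvd (hdvd j hj.1 hj.2)).2 h4

/-- **Q1.**  Every value `m` occurs in a weakly consecutive sequence of length `k` among the first
`m` or among the last `m` entries; the question asks this for `m < k / 2` (for larger `m` it holds
trivially). -/
theorem result (k : ℕ) (σ : ℕ → ℕ) (h : IsWCS k σ) (m : ℕ) (hm : 0 < m) (hmk : 2 * m < k)
    (i : ℕ) (hi : i ∈ Set.Icc 1 k) (him : σ i = m) :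
    i ∈ Set.Icc 1 m ∪ Set.Icc (k - m + 1) k := by
  obtain ⟨r, hr1, hr2, hr3, hr4⟩ := h.class hm (by omega)
  have h1 := h.slice hm hr1 hr2 hr3 hr4
  have hkm : m * (k / m) + k % m = k := Nat.div_add_mod k m
  have hf : 1 ≤ k / m := Nat.div_pos (by omega) hm
  have hdvd : ∀ j, j + 1 ≤ k / m → 1 ≤ r + m * j ∧ r + m * j ≤ k ∧ m ∣ σ (r + m * j) := by
    intro j hj
    have h3 : m * j + m ≤ m * (k / m) := by
      have : m * (j + 1) ≤ m * (k / m) := Nat.mul_le_mul_left _ hj
      rwa [Nat.mul_add, Nat.mul_one] at this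
    have h4 : r + m * j ≤ k := by omega
    exact ⟨by omega, h4, (hr4 _ (by omega) h4).2 (by simp [Nat.ModEq])⟩
  rcases h1.one hf with h2 | h2
  · left
    have h3 := hdvd 0 (by omega)
    have h4 : σ (r + m * (1 - 1)) / m = 1 := h2
    rw [Nat.sub_self, Nat.mul_zero, Nat.add_zero] at h4
    rw [Nat.mul_zero, Nat.add_zero] at h3
    have h5 : σ r = m := by
      rw [← Nat.mul_div_cancel' h3.2.2, h4, Nat.mul_one]
    have h6 : i = r := h.1.injOn hi ⟨h3.1, h3.2.1⟩ (by rw [him, h5])
    exact ⟨hi.1, by omega⟩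
  · right
    have h3 := hdvd (k / m - 1) (by omega)
    have h4 : σ (r + m * (k / m - 1)) / m = 1 := h2
    have h5 : σ (r + m * (k / m - 1)) = m := by
      rw [← Nat.mul_div_cancel' h3.2.2, h4, Nat.mul_one]
    have h6 : i = r + m * (k / m - 1) := h.1.injOn hi ⟨h3.1, h3.2.1⟩ (by rw [him, h5])
    have h7 : m * (k / m - 1) + m = m * (k / m) := by
      have : m * (k / m - 1 + 1) = m * (k / m) := by
        congr 1
        omega
      rwa [Nat.mul_add, Nat.mul_one] at this
    exact ⟨by omega, hi.2⟩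

end Pool.Agent.Results.MP_a4c3d5_co.SmallTerms
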